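import Pool.Agent.R216.GL.C3

/-!
# The weighted `g^*_λ` inequality holds for every weight in `A_p ∩ B_{λp/2}`

For `1 < λ ≤ 2` and `2/λ < p < 2`, every weight `U ∈ A_p ∩ B_{λp/2}` satisfies
`∫ (g^*_λ f)^p U ≤ C ∫ |f|^p U`.
-/

set_option autoImplicit false
set_option linter.unusedVariables false

open MeasureTheory Set Filter Topology
open scoped ENNReal NNReal

namespace Pool.Agent.Results.MP_842e08_an.ApCapBrSuffices

/-- The Poisson integral `f(z,y) = (1/π) ∫ y f(z-x) / (x² + y²) dx`. -/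
noncomputable def pint (f : ℝ → ℝ) (z y : ℝ) : ℝ :=
  (1 / Real.pi) * ∫ x, y * f (z - x) / (x ^ 2 + y ^ 2)

/-- The square `|∇f(z,y)|²` of the length of the gradient of the Poisson integral in `(z,y)`. -/
noncomputable def gradSq (f : ℝ → ℝ) (z y : ℝ) : ℝ :=
  (deriv (fun s => pint f s y) z) ^ 2 + (deriv (fun s => pint f z s) y) ^ 2

/-- The Littlewood-Paley function `g^*_λ f (x)`, with values in `[0,∞]`. -/
noncomputable def gstar (lam : ℝ) (f : ℝ → ℝ) (x : ℝ) : ℝ≥0∞ :=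
  (∫⁻ z, ∫⁻ y in Ioi (0:ℝ), ENNReal.ofReal ((y / (|x - z| + y)) ^ lam * gradSq f z y)) ^ (1 / 2 : ℝ)

/-- `U ∈ A_r`: `((1/|I|)∫_I U) ((1/|I|)∫_I U^{-1/(r-1)})^{r-1} ≤ C` for all intervals `I = (a,b)`. -/
def IsAp (r : ℝ) (U : ℝ → ℝ≥0) : Prop :=
  ∃ C : ℝ≥0, ∀ a b : ℝ, a < b →
    ((∫⁻ x in Ioo a b, (U x : ℝ≥0∞)) / ENNReal.ofReal (b - a)) *
      ((∫⁻ x in Ioo a b, (U x : ℝ≥0∞) ^ (-(1 / (r - 1)))) / ENNReal.ofReal (b - a)) ^ (r - 1) ≤ C

/-- `U ∈ B_r`: `∫ |I|^{r-1} U(x) / (|I|^r + |x - x_I|^r) dx ≤ (C/|I|) ∫_I U` for all intervals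
`I = (a,b)` with centre `x_I = (a+b)/2`. -/
def IsBr (r : ℝ) (U : ℝ → ℝ≥0) : Prop :=
  ∃ C : ℝ≥0, ∀ a b : ℝ, a < b →
    ∫⁻ x, ENNReal.ofReal ((b - a) ^ (r - 1) / ((b - a) ^ r + |x - (a + b) / 2| ^ r)) * U x
      ≤ C / ENNReal.ofReal (b - a) * ∫⁻ x in Ioo a b, (U x : ℝ≥0∞)

/-- The weighted norm inequality `(∗)`: there is a constant `C` with
`∫ (g^*_λ f)^p U ≤ C ∫ |f|^p U` for all measurable `f` with finite right side. -/
def Star (lam p : ℝ) (U : ℝ → ℝ≥0) : Prop :=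
  ∃ C : ℝ≥0, ∀ f : ℝ → ℝ, AEMeasurable f volume →
    ∫⁻ x, ENNReal.ofReal |f x| ^ p * U x ≠ ∞ →
      ∫⁻ x, gstar lam f x ^ p * U x ≤ C * ∫⁻ x, ENNReal.ofReal |f x| ^ p * U x

open Pool.Agent.R216.GL

lemma pint_eq (f : ℝ → ℝ) (z y : ℝ) : pint f z y = PP f z y := by
  unfold pint PP
  have h := integral_sub_left_eq_self (μ := volume)
    (fun t : ℝ => y * f t / ((z - t) ^ 2 + y ^ 2)) z
  have e1 : ∫ x, y * f (z - x) / (x ^ 2 + y ^ 2)
      = ∫ x, y * f (z - x) / ((z - (z - x)) ^ 2 + y ^ 2) := by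
    congr 1; ext x; congr 3; ring
  rw [e1, h, ← integral_const_mul]
  congr 1
  ext t
  unfold pk
  have e2 : (z - t) ^ 2 = (t - z) ^ 2 := by ring
  rw [e2]
  ring

lemma PP_congr {f g : ℝ → ℝ} (h : f =ᵐ[volume] g) (z y : ℝ) : PP f z y = PP g z y := by
  unfold PP
  refine integral_congr_ae ?_
  filter_upwards [h] with t ht
  rw [ht]

lemma pint_im {f g : ℝ → ℝ} (h : f =ᵐ[volume] g) (ha : Adm g) {z y : ℝ} (hy : 0 < y) :
    pint f z y = (Af g (pt z y)).im := by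
  rw [pint_eq, PP_congr h, Af_im ha (pt_mem hy), pt_re, pt_im]

lemma der_z {f g : ℝ → ℝ} (h : f =ᵐ[volume] g) (ha : Adm g) {z y : ℝ} (hy : 0 < y) :
    HasDerivAt (fun s => pint f s y) ((deriv (Af g) (pt z y)).im) z := by
  refine (im_z (Af_diff ha) hy).congr_of_eventuallyEq ?_
  exact Eventually.of_forall fun s => pint_im h ha hy

lemma der_y {f g : ℝ → ℝ} (h : f =ᵐ[volume] g) (ha : Adm g) {z y : ℝ} (hy : 0 < y) :
    HasDerivAt (fun s => pint f z s) ((deriv (Af g) (pt z y)).re) y := by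
  refine (im_y (Af_diff ha) hy).congr_of_eventuallyEq ?_
  filter_upwards [lt_mem_nhds hy] with s hs
  exact pint_im h ha hs

lemma gradSq_eq {f g : ℝ → ℝ} (h : f =ᵐ[volume] g) (ha : Adm g) {z y : ℝ} (hy : 0 < y) :
    gradSq f z y = ‖deriv (Af g) (pt z y)‖ ^ 2 := by
  unfold gradSq
  rw [(der_z h ha hy).deriv, (der_y h ha hy).deriv, ← Complex.normSq_eq_norm_sq,
    Complex.normSq_apply]
  ring

lemma gstar_eq {f g : ℝ → ℝ} (h : f =ᵐ[volume] g) (ha : Adm g) (lam x : ℝ) :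
    gstar lam f x = Gam lam g x ^ (1 / 2 : ℝ) := by
  unfold gstar
  rw [Gam_iter ha]
  congr 1
  refine lintegral_congr fun z => ?_
  refine setLIntegral_congr_fun measurableSet_Ioi fun y hy => ?_
  rw [gradSq_eq h ha hy]

theorem result (lam p : ℝ) (hlam : 1 < lam) (hlam2 : lam ≤ 2) (hp : 2 / lam < p) (hp2 : p < 2)
    (U : ℝ → ℝ≥0) (hU : LocallyIntegrable (fun x => (U x : ℝ)) volume)
    (hA : IsAp p U) (hB : IsBr (lam * p / 2) U) :
    Star lam p U ∧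
    (¬ (U =ᵐ[volume] 0) → ∀ f : ℝ → ℝ, AEMeasurable f volume →
      ∫⁻ x, ENNReal.ofReal |f x| ^ p * U x ≠ ∞ → ∀ z y : ℝ, 0 < y →
        Integrable (fun x => y * f (z - x) / (x ^ 2 + y ^ 2)) volume ∧
        DifferentiableAt ℝ (fun s => pint f s y) z ∧
        DifferentiableAt ℝ (fun s => pint f z s) y) := by
  have hlam0 : 0 < lam := by linarith
  have hp1 : 1 < p := by
    have : 1 ≤ 2 / lam := by rw [le_div_iff₀ hlam0]; linarith
    linarith
  have hp0 : 0 < p := by linarith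
  have hq : 1 ≤ lam * p / 2 := by
    rw [div_lt_iff₀ hlam0] at hp
    linarith
  by_cases hU0 : U =ᵐ[volume] 0
  · refine ⟨⟨0, fun f _ _ => ?_⟩, fun h => absurd hU0 h⟩
    have : ∫⁻ x, gstar lam f x ^ p * U x = 0 := by
      refine lintegral_eq_zero_of_ae_eq_zero ?_
      filter_upwards [hU0] with x hx
      simp [hx]
    rw [this]
    exact zero_le
  -- a measurable version of the weight
  have hUm : AEMeasurable (fun x => (U x : ℝ≥0∞)) volume := by
    have h1 : AEMeasurable (fun x => (U x : ℝ)) volume := hU.aestronglyMeasurable.aemeasurable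
    have h2 := h1.ennreal_ofReal
    simpa using h2
  set V : ℝ → ℝ≥0∞ := hUm.mk _ with hV
  have hVm : Measurable V := hUm.measurable_mk
  have hUV : (fun x => (U x : ℝ≥0∞)) =ᵐ[volume] V := hUm.ae_eq_mk
  have hVt : ∀ᵐ x, V x ≠ ∞ := by
    filter_upwards [hUV] with x hx
    rw [← hx]; exact ENNReal.coe_ne_top
  have hV0 : ¬ V =ᵐ[volume] 0 := by
    intro h
    apply hU0
    filter_upwards [h, hUV] with x hx hx'
    rw [hx] at hx'
    simpa using hx'
  have hI : ∀ a b : ℝ, ∫⁻ x in Ioo a b, (U x : ℝ≥0∞) = ∫⁻ x in Ioo a b, V x := fun a b =>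
    lintegral_congr_ae (ae_restrict_of_ae hUV)
  obtain ⟨K, hK⟩ := hA
  obtain ⟨C, hC⟩ := hB
  have hAV : ApK p V K := by
    intro a b hab
    have h1 := hK a b hab
    have h2 : ∫⁻ x in Ioo a b, (U x : ℝ≥0∞) ^ (-(1 / (p - 1)))
        = ∫⁻ x in Ioo a b, V x ^ (-(1 / (p - 1))) := by
      refine lintegral_congr_ae (ae_restrict_of_ae ?_)
      filter_upwards [hUV] with x hx
      rw [← hx]
    rwa [hI, h2] at h1
  have hBV : BB (lam * p / 2) V (2 * C) := by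
    refine BB_of hq ?_
    intro a b hab
    have h1 := hC a b hab
    have h2 : ∫⁻ x, ENNReal.ofReal ((b - a) ^ (lam * p / 2 - 1) /
          ((b - a) ^ (lam * p / 2) + |x - (a + b) / 2| ^ (lam * p / 2))) * U x
        = ∫⁻ x, ENNReal.ofReal ((b - a) ^ (lam * p / 2 - 1) /
          ((b - a) ^ (lam * p / 2) + |x - (a + b) / 2| ^ (lam * p / 2))) * V x := by
      refine lintegral_congr_ae ?_
      filter_upwards [hUV] with x hx
      rw [← hx]
    rwa [hI, h2] at h1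
  have hKt : (K : ℝ≥0∞) ≠ ∞ := ENNReal.coe_ne_top
  have hCt : 2 * (C : ℝ≥0∞) ≠ ∞ := ENNReal.mul_ne_top (by norm_num) ENNReal.coe_ne_top
  have hg : Good V := good_of hp1 hVm hKt hAV hVt hV0
  have main : ∀ f : ℝ → ℝ, AEMeasurable f volume →
      ∫⁻ x, ENNReal.ofReal |f x| ^ p * U x ≠ ∞ → ∃ g : ℝ → ℝ, f =ᵐ[volume] g ∧ Adm g ∧
        ∫⁻ x, gstar lam f x ^ p * U x ≤ CF (lam * p / 2) p K (2 * C) *
          ∫⁻ x, ENNReal.ofReal |f x| ^ p * U x := by
    intro f hf hfin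
    have hfg : f =ᵐ[volume] hf.mk f := hf.ae_eq_mk
    have e1 : ∫⁻ x, ENNReal.ofReal |f x| ^ p * U x
        = ∫⁻ x, ENNReal.ofReal |hf.mk f x| ^ p * V x := by
      refine lintegral_congr_ae ?_
      filter_upwards [hfg, hUV] with x hx hx'
      rw [← hx, ← hx']
    rw [e1] at hfin
    obtain ⟨ha, hb⟩ := main_all hlam0 rfl hq hp1 hp2 hVm hg hKt hAV hBV hCt hf.measurable_mk hfin
    refine ⟨hf.mk f, hfg, ha, ?_⟩
    rw [e1]
    refine le_trans (le_of_eq ?_) hb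
    refine lintegral_congr_ae ?_
    filter_upwards [hUV] with x hx
    rw [gstar_eq hfg ha, ← hx, ← ENNReal.rpow_mul]
    congr 2
    ring
  refine ⟨⟨(CF (lam * p / 2) p K (2 * C)).toNNReal, fun f hf hfin => ?_⟩, ?_⟩
  · rw [ENNReal.coe_toNNReal (CF_ne_top hp1 hp2 hq hKt hCt)]
    exact (main f hf hfin).choose_spec.2.2
  · intro _ f hf hfin z y hy
    obtain ⟨g, hfg, ha, -⟩ := main f hf hfin
    refine ⟨?_, (der_z hfg ha hy).differentiableAt, (der_y hfg ha hy).differentiableAt⟩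
    have h1 := PP_integrable ha (z := z) hy
    have h2 : Integrable (fun t => f t * pk z y t) := by
      refine h1.congr ?_
      filter_upwards [hfg] with t ht
      rw [ht]
    have h3 := (h2.comp_sub_left z).const_mul Real.pi
    refine h3.congr (ae_of_all _ fun x => ?_)
    unfold pk
    have hpi := Real.pi_pos.ne'
    have e : (z - x - z) ^ 2 = x ^ 2 := by ring
    simp only
    rw [e]
    have : x ^ 2 + y ^ 2 ≠ 0 := by positivity
    field_simp

end Pool.Agent.Results.MP_842e08_an.ApCapBrSuffices
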